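import Pool.Agent.H772Z.CG.Main

set_option autoImplicit false

namespace Pool.Agent.Results.MP_c4ee57_al.AF2xF2

open Pool.Agent.H772Z.CG

/-- The group `F₂ × F₂` has a finite generating set with rational complete growth series and a
finite generating set with transcendental complete growth series. -/
theorem result :
    ∃ S₁ S₂ : Finset (FreeGroup Bool × FreeGroup Bool),
      Subgroup.closure (S₁ : Set (FreeGroup Bool × FreeGroup Bool)) = ⊤ ∧
      Subgroup.closure (S₂ : Set (FreeGroup Bool × FreeGroup Bool)) = ⊤ ∧
      IsRational (completeGrowth S₁) ∧ ¬ IsAlgebraicSeries (completeGrowth S₂) :=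
  ⟨stdSet Bool, bigSet, std_closure, big_closure, std_rational, big_not_algebraic⟩

end Pool.Agent.Results.MP_c4ee57_al.AF2xF2
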